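import Mathlib
import Pool.Agent.KS6_27.TFc

set_option autoImplicit false

open Filter Topology

namespace Pool.Agent.Results.MP_e10300_co.TriangleFreeDichotomy

/-- The number of embeddings (injective homomorphisms) of `F` into `G`. -/
noncomputable def emb {A : Type} (F : SimpleGraph A) {n : ℕ} (G : SimpleGraph (Fin n)) : ℕ :=
  Set.ncard {f : A → Fin n | Function.Injective f ∧ ∀ i j, F.Adj i j → G.Adj (f i) (f j)}

/-- The normalised count `s_p(F,G) = emb(F,G) / ((n)_{|F|} p^{e(F)})`. -/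
noncomputable def sp {A : Type} (p : ℝ) (F : SimpleGraph A) {n : ℕ} (G : SimpleGraph (Fin n)) : ℝ :=
  (emb F G : ℝ) / ((n.descFactorial (Nat.card A) : ℝ) * p ^ F.edgeSet.ncard)

/-- `(p, G)` has asymptotically the `G(n,p)` number of copies of *every* triangle-free graph
and asymptotically none (relative to `G(n,p)`) of any graph containing a triangle
(graphs without isolated vertices). -/
def TriangleDichotomy (p : ℕ → ℝ) (G : ∀ n, SimpleGraph (Fin n)) : Prop :=
  ∀ (A : Type) [Finite A] (F : SimpleGraph A), (∀ a, ∃ b, F.Adj a b) →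
    (F.CliqueFree 3 → Tendsto (fun n => sp (p n) F (G n)) atTop (𝓝 1)) ∧
    (¬ F.CliqueFree 3 → Tendsto (fun n => sp (p n) F (G n)) atTop (𝓝 0))

theorem dich (r : ℕ → ℝ) (hr : Tendsto r atTop (𝓝 0)) (hr0 : ∀ᶠ n in atTop, 0 < r n) :
    ∃ (p : ℕ → ℝ) (G : ∀ n, SimpleGraph (Fin n)),
      (∀ n, 0 < p n ∧ p n ≤ 1) ∧ Tendsto p atTop (𝓝 0) ∧
      Tendsto (fun n => p n / r n) atTop atTop ∧ TriangleDichotomy p G := by
  have hs : Tendsto (fun n => Real.sqrt (r n)) atTop (𝓝 0) := by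
    have := (Real.continuous_sqrt.tendsto 0).comp hr
    rwa [Real.sqrt_zero] at this
  obtain ⟨p, G, h1, h2, h3, h4⟩ := Pool.Agent.KS6_27.TF.main _ hs
  refine ⟨p, G, h1, h2, ?_, ?_⟩
  · have hinv : Tendsto (fun n => (Real.sqrt (r n))⁻¹) atTop atTop := by
      refine Tendsto.inv_tendsto_nhdsGT_zero ?_
      rw [tendsto_nhdsWithin_iff]
      exact ⟨hs, hr0.mono fun n h => Real.sqrt_pos.2 h⟩
    refine tendsto_atTop_mono' atTop ?_ hinv
    filter_upwards [h3, hr0] with n hn h0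
    have hq := Real.sqrt_pos.2 h0
    rw [le_div_iff₀ h0]
    calc (Real.sqrt (r n))⁻¹ * r n = (Real.sqrt (r n))⁻¹ * (Real.sqrt (r n) * Real.sqrt (r n)) := by
          rw [Real.mul_self_sqrt h0.le]
      _ = Real.sqrt (r n) := by rw [← mul_assoc, inv_mul_cancel₀ hq.ne', one_mul]
      _ ≤ p n := hn
  · intro A _ F hF
    classical
    have : Fintype A := Fintype.ofFinite A
    have h5 := h4 A F hF
    have e : ∀ n, sp (p n) F (G n) = (Pool.Agent.V11147.TB.emb F (G n) : ℝ) /
          ((n.descFactorial (Fintype.card A) : ℝ) * p n ^ F.edgeFinset.card) := by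
      intro n
      unfold sp
      rw [Nat.card_eq_fintype_card, ← SimpleGraph.coe_edgeFinset, Set.ncard_coe_finset]
      rfl
    constructor
    · intro hf
      simp only [e]
      convert h5.1 hf using 10
    · intro hf
      simp only [e]
      convert h5.2 hf using 10

/-- (1) For every `r(n) → 0` there are `p → 0`, `p/r → ∞`, and `G_n` satisfying the dichotomy;
(2) one `(p, G)` with the dichotomy satisfies `p = ω((log n)^a n^{-1/s})` for all `s`, `a`
simultaneously. -/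
theorem result :
    (∀ r : ℕ → ℝ, Tendsto r atTop (𝓝 0) → (∀ᶠ n in atTop, 0 < r n) →
      ∃ (p : ℕ → ℝ) (G : ∀ n, SimpleGraph (Fin n)),
        (∀ n, 0 < p n ∧ p n ≤ 1) ∧ Tendsto p atTop (𝓝 0) ∧
        Tendsto (fun n => p n / r n) atTop atTop ∧ TriangleDichotomy p G) ∧
    (∃ (p : ℕ → ℝ) (G : ∀ n, SimpleGraph (Fin n)),
        (∀ n, 0 < p n ∧ p n ≤ 1) ∧
        (∀ s : ℕ, 1 ≤ s → ∀ a : ℝ, Tendsto
          (fun n : ℕ => p n / ((Real.log n) ^ a * (n : ℝ) ^ (-(1 / (s : ℝ))))) atTop atTop) ∧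
        TriangleDichotomy p G) := by
  refine ⟨fun r h1 h2 => dich r h1 h2, ?_⟩
  have hlog : Tendsto (fun n : ℕ => Real.log n) atTop atTop :=
    Real.tendsto_log_atTop.comp tendsto_natCast_atTop_atTop
  have hr : Tendsto (fun n : ℕ => (Real.log n)⁻¹) atTop (𝓝 0) :=
    tendsto_inv_atTop_zero.comp hlog
  obtain ⟨p, G, h1, h2, h3, h4⟩ := dich (fun n : ℕ => (Real.log n)⁻¹) hr
    ((hlog.eventually_gt_atTop 0).mono fun n h => inv_pos.2 h)
  refine ⟨p, G, h1, ?_, h4⟩
  intro s hs a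
  have hs0 : (0 : ℝ) < 1 / (s : ℝ) := by
    have : (0 : ℝ) < s := by exact_mod_cast hs
    positivity
  have hlo := (isLittleO_log_rpow_rpow_atTop (a + 1) hs0).comp_tendsto
    (tendsto_natCast_atTop_atTop (R := ℝ))
  have hev := hlo.bound (c := 1) one_pos
  refine tendsto_atTop_mono' atTop ?_ h3
  filter_upwards [hev, hlog.eventually_gt_atTop 0, eventually_gt_atTop 0] with n hn hl hn0
  have hnR : (0 : ℝ) < n := by exact_mod_cast hn0
  simp only [Function.comp_apply, one_mul] at hn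
  rw [Real.norm_of_nonneg (Real.rpow_nonneg hl.le _),
    Real.norm_of_nonneg (Real.rpow_nonneg hnR.le _), Real.rpow_add hl, Real.rpow_one] at hn
  have hp := (h1 n).1
  refine div_le_div_of_nonneg_left hp.le (by positivity) ?_
  rw [Real.rpow_neg hnR.le, ← div_eq_mul_inv, div_le_iff₀ (by positivity),
    ← mul_le_mul_iff_left₀ hl]
  calc (Real.log n) ^ a * Real.log n ≤ (n : ℝ) ^ (1 / (s : ℝ)) := hn
    _ = (Real.log n)⁻¹ * (n : ℝ) ^ (1 / (s : ℝ)) * Real.log n := by
        field_simp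

end Pool.Agent.Results.MP_e10300_co.TriangleFreeDichotomy
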